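import Pool.Agent.E8N.NMain

/-!
# Every convex body in `ℝ^d`, `d ≥ 4`, has an 8-normal point
-/

set_option autoImplicit false

namespace Pool.Agent.Results.MP_00eb82_gt.EightNormals

/-- `p` lies on a normal of `K` at `x`: on a line through `x` spanned by a nonzero vector `ν`
orthogonal to a hyperplane through `x` that has `K` on one side. -/
def OnNormal {d : ℕ} (K : Set (EuclideanSpace ℝ (Fin d))) (x p : EuclideanSpace ℝ (Fin d)) :
    Prop :=
  ∃ ν : EuclideanSpace ℝ (Fin d), ν ≠ 0 ∧ (∀ z ∈ K, inner ℝ ν z ≤ inner ℝ ν x) ∧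
    ∃ t : ℝ, p = x + t • ν

/-- `p` is a `k`-normal point of `K`: an interior point lying on normals of `K` at `k` distinct
boundary points. -/
def IsNormalPoint {d : ℕ} (k : ℕ) (K : Set (EuclideanSpace ℝ (Fin d)))
    (p : EuclideanSpace ℝ (Fin d)) : Prop :=
  p ∈ interior K ∧ ∃ X : Finset (EuclideanSpace ℝ (Fin d)), X.card = k ∧
    ∀ x ∈ X, x ∈ frontier K ∧ OnNormal K x p

/-- For every `d ≥ 4`, every convex body in `ℝ^d` has an 8-normal point. -/
theorem result {d : ℕ} (hd : 4 ≤ d) {K : Set (EuclideanSpace ℝ (Fin d))} (hc : IsCompact K)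
    (hconv : Convex ℝ K) (hne : (interior K).Nonempty) : ∃ p, IsNormalPoint 8 K p := by
  obtain ⟨p, hp, T, hT, h⟩ := Pool.Agent.E8N.main8 (K := K) (by rw [finrank_euclideanSpace_fin]; exact hd)
    hc hconv hne
  exact ⟨p, hp, T, hT, fun x hx => h x hx⟩

end Pool.Agent.Results.MP_00eb82_gt.EightNormals
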