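import Pool.Agent.CNX.Main

/-!
# The concurrent normals conjecture is false in all large dimensions

For every `k` and every large `d` there is a convex body in `ℝ^d` without `(2d - k)`-normal point.
The case `k = 0` is the negation of Q1 (for every large `d`).
-/

set_option autoImplicit false

namespace Pool.Agent.Results.MP_00eb82_gt.NoManyNormals

/-- `p` lies on a normal of `K` at `x`: on a line through `x` spanned by a nonzero vector `ν`
orthogonal to a hyperplane through `x` that has `K` on one side. -/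
def OnNormal {d : ℕ} (K : Set (EuclideanSpace ℝ (Fin d))) (x p : EuclideanSpace ℝ (Fin d)) :
    Prop :=
  ∃ ν : EuclideanSpace ℝ (Fin d), ν ≠ 0 ∧ (∀ z ∈ K, inner ℝ ν z ≤ inner ℝ ν x) ∧
    ∃ t : ℝ, p = x + t • ν

/-- `p` is a `k`-normal point of `K`: an interior point lying on normals of `K` at `k` distinct
boundary points. -/
def IsNormalPoint {d : ℕ} (k : ℕ) (K : Set (EuclideanSpace ℝ (Fin d)))
    (p : EuclideanSpace ℝ (Fin d)) : Prop :=
  p ∈ interior K ∧ ∃ X : Finset (EuclideanSpace ℝ (Fin d)), X.card = k ∧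
    ∀ x ∈ X, x ∈ frontier K ∧ OnNormal K x p

/-- For every `k` there is `d₀ ≥ 4` such that for every `d ≥ d₀` some convex body in `ℝ^d` has no
`(2d - k)`-normal point (and `k ≤ 2d`). With `k = 0`: the concurrent normals conjecture is false in
every dimension `d ≥ d₀`. -/
theorem result (k : ℕ) : ∃ d₀ : ℕ, 4 ≤ d₀ ∧ ∀ d : ℕ, d₀ ≤ d → k ≤ 2 * d ∧
    ∃ K : Set (EuclideanSpace ℝ (Fin d)), IsCompact K ∧ Convex ℝ K ∧ (interior K).Nonempty ∧
      ∀ p : EuclideanSpace ℝ (Fin d), ¬ IsNormalPoint (2 * d - k) K p := by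
  obtain ⟨d0, h⟩ := Pool.Agent.CNX.goal k
  refine ⟨max d0 (max 4 k), (le_max_left _ _).trans (le_max_right _ _), fun d hd => ?_⟩
  have hk : k ≤ 2 * d := by
    have := ((le_max_right 4 k).trans (le_max_right d0 _)).trans hd
    omega
  obtain ⟨K, h1, h2, h3, h4⟩ := h d ((le_max_left _ _).trans hd)
  refine ⟨hk, K, h1, h2, h3, ?_⟩
  rintro p ⟨hp, X, hX, hx⟩
  have := h4 p hp X hx
  omega

end Pool.Agent.Results.MP_00eb82_gt.NoManyNormals
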