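import Mathlib

set_option autoImplicit false

namespace Pool.Agent.Results.MP_00eb82_gt.PolytopeNormals

/-! ## Geometry of two half-spaces -/

section Geometry

variable {E : Type*} [NormedAddCommGroup E] [InnerProductSpace ℝ E]

theorem abs_inner_lt_one {a b : E} (ha : ‖a‖ = 1) (hb : ‖b‖ = 1) (hab : a ≠ b) (hab' : a ≠ -b) :
    inner ℝ a b < 1 ∧ -1 < inner ℝ a b := by
  constructor
  · refine lt_of_le_of_ne ?_ ?_
    · calc inner ℝ a b ≤ ‖a‖ * ‖b‖ := real_inner_le_norm a b
        _ = 1 := by rw [ha, hb]; norm_num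
    · intro h
      exact hab ((inner_eq_one_iff_of_norm_eq_one ha hb).1 h)
  · refine lt_of_le_of_ne ?_ ?_
    · have := abs_real_inner_le_norm a b
      rw [ha, hb] at this
      have := (abs_le.1 this).1
      linarith
    · intro h
      exact hab' ((inner_eq_neg_one_iff_of_norm_eq_one ha hb).1 h.symm)

theorem indep {a b : E} (ha : ‖a‖ = 1) (hb : ‖b‖ = 1) (hab : a ≠ b) (hab' : a ≠ -b)
    {s t : ℝ} (h : s • a + t • b = 0) : s = 0 ∧ t = 0 := by
  obtain ⟨h1, h2⟩ := abs_inner_lt_one ha hb hab hab'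
  have haa : inner ℝ a a = (1 : ℝ) := by rw [real_inner_self_eq_norm_sq, ha]; norm_num
  have hbb : inner ℝ b b = (1 : ℝ) := by rw [real_inner_self_eq_norm_sq, hb]; norm_num
  have e1 : inner ℝ a (s • a + t • b) = (0 : ℝ) := by rw [h, inner_zero_right]
  have e2 : inner ℝ b (s • a + t • b) = (0 : ℝ) := by rw [h, inner_zero_right]
  rw [inner_add_right, real_inner_smul_right, real_inner_smul_right, haa] at e1
  rw [inner_add_right, real_inner_smul_right, real_inner_smul_right, hbb,
    real_inner_comm a b] at e2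
  set τ : ℝ := inner ℝ a b with hτ
  have hs : s * (1 - τ ^ 2) = 0 := by nlinarith
  have hτ2 : 1 - τ ^ 2 ≠ 0 := by nlinarith
  have hs0 : s = 0 := by
    rcases mul_eq_zero.1 hs with h | h
    · exact h
    · exact absurd h hτ2
  refine ⟨hs0, ?_⟩
  rw [hs0] at e2
  linarith

/-- The point of least norm in the intersection of two half-spaces. -/
theorem exists_near {a b : E} (ha : ‖a‖ = 1) (hb : ‖b‖ = 1) (hab : a ≠ b) (hab' : a ≠ -b)
    {α β : ℝ} (hα : 0 < α) (hβ : 0 < β) :
    ∃ (z : E) (l m : ℝ), 0 ≤ l ∧ 0 ≤ m ∧ z = l • a + m • b ∧ α ≤ inner ℝ a z ∧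
      β ≤ inner ℝ b z ∧ (l ≠ 0 → inner ℝ a z = α) ∧ (m ≠ 0 → inner ℝ b z = β) := by
  obtain ⟨h1, h2⟩ := abs_inner_lt_one ha hb hab hab'
  have haa : inner ℝ a a = (1 : ℝ) := by rw [real_inner_self_eq_norm_sq, ha]; norm_num
  have hbb : inner ℝ b b = (1 : ℝ) := by rw [real_inner_self_eq_norm_sq, hb]; norm_num
  set τ : ℝ := inner ℝ a b with hτ
  have hba : inner ℝ b a = τ := by rw [hτ, real_inner_comm]
  have ia : ∀ l m : ℝ, inner ℝ a (l • a + m • b) = l + m * τ := by
    intro l m
    rw [inner_add_right, real_inner_smul_right, real_inner_smul_right, haa, mul_one]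
  have ib : ∀ l m : ℝ, inner ℝ b (l • a + m • b) = l * τ + m := by
    intro l m
    rw [inner_add_right, real_inner_smul_right, real_inner_smul_right, hbb, hba, mul_one]
  by_cases c1 : β ≤ τ * α
  · refine ⟨α • a + (0 : ℝ) • b, α, 0, hα.le, le_refl _, rfl, ?_, ?_, ?_, ?_⟩
    · rw [ia]; linarith
    · rw [ib]; linarith
    · intro _; rw [ia]; ring
    · intro h; exact absurd rfl h
  · by_cases c2 : α ≤ τ * β
    · refine ⟨(0 : ℝ) • a + β • b, 0, β, le_refl _, hβ.le, rfl, ?_, ?_, ?_, ?_⟩
      · rw [ia]; linarith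
      · rw [ib]; linarith
      · intro h; exact absurd rfl h
      · intro _; rw [ib]; ring
    · push Not at c1 c2
      have hτ2 : 0 < 1 - τ ^ 2 := by nlinarith
      refine ⟨((α - τ * β) / (1 - τ ^ 2)) • a + ((β - τ * α) / (1 - τ ^ 2)) • b,
        (α - τ * β) / (1 - τ ^ 2), (β - τ * α) / (1 - τ ^ 2), ?_, ?_, rfl, ?_, ?_, ?_, ?_⟩
      · exact div_nonneg (by linarith) hτ2.le
      · exact div_nonneg (by linarith) hτ2.le
      · rw [ia]; apply le_of_eq; field_simp; ring
      · rw [ib]; apply le_of_eq; field_simp; ring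
      · intro _; rw [ia]; field_simp; ring
      · intro _; rw [ib]; field_simp; ring

/-- The least norm property, with uniqueness. -/
theorem near_least {a b z : E} {l m α β : ℝ} (hl : 0 ≤ l) (hm : 0 ≤ m)
    (hz : z = l • a + m • b) (hla : l ≠ 0 → inner ℝ a z = α) (hmb : m ≠ 0 → inner ℝ b z = β)
    {x : E} (hxa : α ≤ inner ℝ a x) (hxb : β ≤ inner ℝ b x) :
    ‖z‖ < ‖x‖ ∨ z = x := by
  have h1 : inner ℝ z z ≤ (inner ℝ z x : ℝ) := by
    have e1 : inner ℝ z z = l * inner ℝ a z + m * (inner ℝ b z : ℝ) := by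
      conv_lhs => rw [hz]
      rw [inner_add_left, real_inner_smul_left, real_inner_smul_left, ← hz]
    have e2 : inner ℝ z x = l * inner ℝ a x + m * (inner ℝ b x : ℝ) := by
      conv_lhs => rw [hz]
      rw [inner_add_left, real_inner_smul_left, real_inner_smul_left]
    rw [e1, e2]
    have f1 : l * inner ℝ a z ≤ l * (inner ℝ a x : ℝ) := by
      by_cases h : l = 0
      · rw [h]; simp
      · rw [hla h]; exact mul_le_mul_of_nonneg_left hxa hl
    have f2 : m * inner ℝ b z ≤ m * (inner ℝ b x : ℝ) := by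
      by_cases h : m = 0
      · rw [h]; simp
      · rw [hmb h]; exact mul_le_mul_of_nonneg_left hxb hm
    linarith
  by_cases hlt : ‖z‖ < ‖x‖
  · exact Or.inl hlt
  · right
    push Not at hlt
    have h2 : ‖z - x‖ ^ 2 = ‖z‖ ^ 2 - 2 * inner ℝ z x + ‖x‖ ^ 2 := norm_sub_sq_real z x
    rw [real_inner_self_eq_norm_sq] at h1
    have h3 : ‖x‖ ^ 2 ≤ ‖z‖ ^ 2 := by
      have := norm_nonneg x
      nlinarith
    have h4 : ‖z - x‖ ^ 2 ≤ 0 := by linarith
    have h5 : ‖z - x‖ = 0 := by
      have := norm_nonneg (z - x)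
      nlinarith
    exact sub_eq_zero.1 (norm_eq_zero.1 h5)

/-- No three facets can pairwise be first joined at the same point. -/
theorem no_three {a a' b' z : E} (ha' : ‖a'‖ = 1) (hb' : ‖b'‖ = 1) (h1 : a' ≠ b')
    (h1' : a' ≠ -b') {l₁ m₁ l₂ m₂ l₃ m₃ : ℝ} (hl1 : 0 < l₁) (hm1 : 0 < m₁)
    (hz1 : z = l₁ • a' + m₁ • b') (hl2 : 0 ≤ l₂) (hm2 : 0 ≤ m₂) (hz2 : z = l₂ • a + m₂ • a')
    (hl3 : 0 ≤ l₃) (hm3 : 0 ≤ m₃) (hz3 : z = l₃ • a + m₃ • b')
    (hna : ∀ s : ℝ, z ≠ s • a) : False := by
  -- multiply the two expressions for `a`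
  have e2 : l₂ • a = (l₁ - m₂) • a' + m₁ • b' := by
    have : l₂ • a = z - m₂ • a' := by rw [hz2]; abel
    rw [this, hz1, sub_smul]; abel
  have e3 : l₃ • a = l₁ • a' + (m₁ - m₃) • b' := by
    have : l₃ • a = z - m₃ • b' := by rw [hz3]; abel
    rw [this, hz1, sub_smul]; abel
  have hm2' : 0 < m₂ := by
    refine lt_of_le_of_ne hm2 ?_
    intro h
    apply hna l₂
    rw [hz2, ← h]; simp
  have hm3' : 0 < m₃ := by
    refine lt_of_le_of_ne hm3 ?_
    intro h
    apply hna l₃
    rw [hz3, ← h]; simp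
  have key : (l₃ * (l₁ - m₂) - l₂ * l₁) • a' + (l₃ * m₁ - l₂ * (m₁ - m₃)) • b' = 0 := by
    have : l₃ • (l₂ • a) = l₂ • (l₃ • a) := by rw [smul_smul, smul_smul, mul_comm]
    rw [e2, e3] at this
    rw [smul_add, smul_add, smul_smul, smul_smul, smul_smul, smul_smul] at this
    rw [sub_smul, sub_smul]
    have := sub_eq_zero.2 this
    rw [← this]; abel
  obtain ⟨k1, k2⟩ := indep ha' hb' h1 h1' key
  -- l₂ > 0
  have hl2' : 0 < l₂ := by
    refine lt_of_le_of_ne hl2 ?_
    intro h
    rw [← h, zero_smul] at e2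
    obtain ⟨_, q⟩ := indep ha' hb' h1 h1' e2.symm
    linarith
  have hl3' : 0 < l₃ := by
    refine lt_of_le_of_ne hl3 ?_
    intro h
    rw [← h, zero_smul] at e3
    obtain ⟨q, _⟩ := indep ha' hb' h1 h1' e3.symm
    linarith
  have k1' : l₃ * l₁ = l₂ * l₁ + l₃ * m₂ := by linarith
  have k2' : l₂ * m₁ = l₃ * m₁ + l₂ * m₃ := by linarith
  have q1 : l₂ < l₃ := by
    have : l₂ * l₁ < l₃ * l₁ := by rw [k1']; nlinarith
    exact lt_of_mul_lt_mul_right this hl1.le
  have q2 : l₃ < l₂ := by
    have : l₃ * m₁ < l₂ * m₁ := by rw [k2']; nlinarith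
    exact lt_of_mul_lt_mul_right this hm1.le
  exact lt_asymm q1 q2

end Geometry

/-! ## The core theorem -/

section Core

variable {E : Type*} [NormedAddCommGroup E] [InnerProductSpace ℝ E]

/-- The polyhedron cut out by the half-spaces `⟨a, z⟩ ≤ β a`, `a ∈ A`. -/
def poly (A : Finset E) (β : E → ℝ) : Set E := {z | ∀ a ∈ A, inner ℝ a z ≤ β a}

open Filter Topology in
theorem exists_small (A : Finset E) (β : E → ℝ) {y v : E} (hy : y ∈ poly A β)
    (hv : ∀ k ∈ A, inner ℝ k y = β k → inner ℝ k v ≤ 0) :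
    ∃ ε : ℝ, 0 < ε ∧ y + ε • v ∈ poly A β := by
  have h : ∀ᶠ ε in 𝓝[>] (0 : ℝ), ∀ k ∈ A, inner ℝ k (y + ε • v) ≤ β k := by
    rw [Filter.eventually_all_finset]
    intro k hk
    by_cases hkt : inner ℝ k y = β k
    · filter_upwards [self_mem_nhdsWithin] with ε hε
      have hε' : (0 : ℝ) < ε := hε
      rw [inner_add_right, real_inner_smul_right, hkt]
      have := hv k hk hkt
      nlinarith
    · have hlt : inner ℝ k y < β k := lt_of_le_of_ne (hy k hk) hkt
      have hcont : Continuous fun ε : ℝ => (inner ℝ k (y + ε • v) : ℝ) := by fun_prop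
      have ht : Tendsto (fun ε : ℝ => (inner ℝ k (y + ε • v) : ℝ)) (𝓝[>] 0)
          (𝓝 (inner ℝ k (y + (0 : ℝ) • v))) :=
        (hcont.tendsto 0).mono_left nhdsWithin_le_nhds
      rw [zero_smul, add_zero] at ht
      filter_upwards [ht.eventually (gt_mem_nhds hlt)] with ε hε using hε.le
  obtain ⟨ε, h1, h2⟩ := (h.and self_mem_nhdsWithin).exists
  exact ⟨ε, h2, h1⟩

theorem core [FiniteDimensional ℝ E] (hd : 3 ≤ Module.finrank ℝ E) (A : Finset E) (β : E → ℝ)
    (hA : ∀ a ∈ A, ‖a‖ = 1) (r : ℝ) (hr : 0 < r) (hβ : ∀ a ∈ A, r ≤ β a)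
    (T : Finset E) (hTA : T ⊆ A) (hT : ∀ a ∈ T, β a = r) (hT3 : 3 ≤ T.card)
    (hK : IsCompact (poly A β)) :
    ∃ X : Finset E, 2 * T.card ≤ X.card ∧
      ∀ x ∈ X, x ∈ poly A β ∧ x ≠ 0 ∧ ∀ z ∈ poly A β, inner ℝ x (z - x) ≤ 0 := by
  classical
  have hβ0 : ∀ a ∈ A, 0 < β a := fun a ha => lt_of_lt_of_le hr (hβ a ha)
  have hfoot : ∀ a ∈ T, r • a ∈ poly A β := by
    intro a ha k hk
    rw [real_inner_smul_right]
    have h1 : (inner ℝ k a : ℝ) ≤ 1 := by
      calc inner ℝ k a ≤ ‖k‖ * ‖a‖ := real_inner_le_norm k a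
        _ = 1 := by rw [hA k hk, hA a (hTA ha)]; norm_num
    have := hβ k hk
    nlinarith
  obtain ⟨t0, ht0⟩ : T.Nonempty := Finset.card_pos.1 (by omega)
  obtain ⟨y, hyK, hymax⟩ : ∃ y ∈ poly A β, ∀ z ∈ poly A β, ‖z‖ ≤ ‖y‖ := by
    obtain ⟨y, hy, hm⟩ := hK.exists_isMaxOn ⟨_, hfoot t0 ht0⟩ continuous_norm.continuousOn
    exact ⟨y, hy, fun z hz => hm hz⟩
  have hF : ∀ v : E, v ≠ 0 → (∀ k ∈ A, inner ℝ k y = β k → inner ℝ k v ≤ 0) →
      inner ℝ y v < 0 := by
    intro v hv hk
    obtain ⟨ε, hε, hmem⟩ := exists_small A β hyK hk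
    have h1 := hymax _ hmem
    have h2 : ‖y + ε • v‖ ^ 2 = ‖y‖ ^ 2 + 2 * inner ℝ y (ε • v) + ‖ε • v‖ ^ 2 :=
      norm_add_sq_real y (ε • v)
    rw [real_inner_smul_right, norm_smul, Real.norm_eq_abs, abs_of_pos hε] at h2
    have h3 : ‖y + ε • v‖ ^ 2 ≤ ‖y‖ ^ 2 := by
      have := norm_nonneg (y + ε • v)
      nlinarith
    have hv' : 0 < ‖v‖ := norm_pos_iff.2 hv
    have h4 : 0 < (ε * ‖v‖) ^ 2 := by positivity
    have h5 : ε * (inner ℝ y v : ℝ) < 0 := by nlinarith
    by_contra hcon
    push Not at hcon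
    have := mul_nonneg hε.le hcon
    linarith
  -- the index type
  let V := {a : E // a ∈ A}
  have hV : ∀ a : V, ‖a.1‖ = 1 := fun a => hA a.1 a.2
  have hVβ : ∀ a : V, 0 < β a.1 := fun a => hβ0 a.1 a.2
  have : Nonempty V := ⟨⟨t0, hTA ht0⟩⟩
  have hkey : ∀ a b : V, ∃ (z : E) (l m : ℝ), a.1 ≠ b.1 → a.1 ≠ -b.1 →
      (0 ≤ l ∧ 0 ≤ m ∧ z = l • a.1 + m • b.1 ∧ β a.1 ≤ inner ℝ a.1 z ∧
      β b.1 ≤ inner ℝ b.1 z ∧ (l ≠ 0 → inner ℝ a.1 z = β a.1) ∧
      (m ≠ 0 → inner ℝ b.1 z = β b.1)) := by
    intro a b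
    by_cases h : a.1 ≠ b.1 ∧ a.1 ≠ -b.1
    · obtain ⟨z, l, m, hz⟩ := exists_near (hV a) (hV b) h.1 h.2 (hVβ a) (hVβ b)
      exact ⟨z, l, m, fun _ _ => hz⟩
    · exact ⟨0, 0, 0, fun h1 h2 => absurd ⟨h1, h2⟩ h⟩
  choose z l m hzspec using hkey
  -- joint points beat nearest points
  have hSD : ∀ a k : V, a.1 ≠ k.1 → ∀ x : E, β a.1 ≤ inner ℝ a.1 x → β k.1 ≤ inner ℝ k.1 x →
      a.1 ≠ -k.1 ∧ (‖z a k‖ < ‖x‖ ∨ z a k = x) := by
    intro a k hak x hax hkx
    have hneg : a.1 ≠ -k.1 := by
      intro h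
      rw [h, inner_neg_left] at hax
      have h1 := hVβ k
      have h2 := hVβ a
      rw [h] at h2
      linarith
    obtain ⟨h1, h2, h3, h4, h5, h6, h7⟩ := hzspec a k hak hneg
    exact ⟨hneg, near_least h1 h2 h3 h6 h7 hax hkx⟩
  -- saddle points
  let cond : V × V → Prop := fun p => p.1.1 ≠ p.2.1 ∧ p.1.1 ≠ -p.2.1 ∧ l p.1 p.2 ≠ 0 ∧
    m p.1 p.2 ≠ 0 ∧ z p.1 p.2 ∈ poly A β ∧ z p.1 p.2 ≠ y
  let S : Finset E := (Finset.univ.filter cond).image (fun p => z p.1 p.2)
  have hSmem : ∀ s ∈ S, ∃ p : V × V, cond p ∧ z p.1 p.2 = s := by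
    intro s hs
    obtain ⟨p, hp, hps⟩ := Finset.mem_image.1 hs
    exact ⟨p, (Finset.mem_filter.1 hp).2, hps⟩
  choose! pr hpr using hSmem
  -- descents
  let M : Finset V := Finset.univ.filter
    (fun a => ∀ b : V, b ≠ a → inner ℝ b.1 (β a.1 • a.1) < β b.1)
  have hdesc : ∀ a : V, a ∉ M → ∃ b : V, b ≠ a ∧ β b.1 ≤ inner ℝ b.1 (β a.1 • a.1) := by
    intro a ha
    by_contra hcon
    push Not at hcon
    exact ha (Finset.mem_filter.2 ⟨Finset.mem_univ _, hcon⟩)
  choose! φ hφ using hdesc
  let ES : Finset (Sym2 V) := S.image (fun s => s((pr s).1, (pr s).2)) ∪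
    (Finset.univ.filter (fun a : V => a ∉ M)).image (fun a => s(a, φ a))
  let G : SimpleGraph V := SimpleGraph.fromEdgeSet (ES : Set (Sym2 V))
  have hadjφ : ∀ a : V, a ∉ M → G.Adj a (φ a) := by
    intro a ha
    rw [SimpleGraph.fromEdgeSet_adj]
    refine ⟨?_, (hφ a ha).1.symm⟩
    rw [Finset.mem_coe, Finset.mem_union]
    right
    exact Finset.mem_image.2 ⟨a, Finset.mem_filter.2 ⟨Finset.mem_univ _, ha⟩, rfl⟩
  have hadjS : ∀ s ∈ S, G.Adj (pr s).1 (pr s).2 := by
    intro s hs
    rw [SimpleGraph.fromEdgeSet_adj]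
    refine ⟨?_, ?_⟩
    · rw [Finset.mem_coe, Finset.mem_union]
      left
      exact Finset.mem_image.2 ⟨s, hs, rfl⟩
    · intro h
      exact (hpr s hs).1.1 (congrArg Subtype.val h)
  -- type II joins
  have hcore : ∀ c : ℝ, (∀ a b : V, a.1 ≠ b.1 → a.1 ≠ -b.1 → ‖z a b‖ < c → G.Reachable a b) →
      ∀ a b : V, a.1 ≠ b.1 → a.1 ≠ -b.1 → l a b ≠ 0 → m a b ≠ 0 → ‖z a b‖ = c →
      G.Reachable a b := by
    intro c IH a b hab hab' hl hm hc
    obtain ⟨h1, h2, h3, h4, h5, h6, h7⟩ := hzspec a b hab hab'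
    set w := z a b with hw
    have hta := h6 hl
    have htb := h7 hm
    have hlpos : 0 < l a b := lt_of_le_of_ne h1 (Ne.symm hl)
    have hmpos : 0 < m a b := lt_of_le_of_ne h2 (Ne.symm hm)
    have hnpa : ∀ s : ℝ, w ≠ s • a.1 := by
      intro s hs
      have : (l a b - s) • a.1 + m a b • b.1 = 0 := by
        rw [sub_smul, ← hs, h3]; abel
      exact hm (indep (hV a) (hV b) hab hab' this).2
    have hnpb : ∀ s : ℝ, w ≠ s • b.1 := by
      intro s hs
      have : l a b • a.1 + (m a b - s) • b.1 = 0 := by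
        rw [sub_smul, ← hs, h3]; abel
      exact hl (indep (hV a) (hV b) hab hab' this).1
    have hstep : ∀ k : V, a.1 ≠ k.1 → b.1 ≠ k.1 → β k.1 ≤ inner ℝ k.1 w → z a k ≠ w →
        z b k ≠ w → G.Reachable a b := by
      intro k hak hbk hkw hzak hzbk
      obtain ⟨n1, d1⟩ := hSD a k hak w hta.ge hkw
      obtain ⟨n2, d2⟩ := hSD b k hbk w htb.ge hkw
      have r1 := IH a k hak n1 (by rw [← hc]; exact d1.resolve_right hzak)
      have r2 := IH b k hbk n2 (by rw [← hc]; exact d2.resolve_right hzbk)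
      exact r1.trans r2.symm
    by_cases h2a : ∃ k : V, β k.1 < inner ℝ k.1 w
    · obtain ⟨k, hk⟩ := h2a
      have hak : a.1 ≠ k.1 := by
        intro h; rw [← h, hta] at hk; exact lt_irrefl _ hk
      have hbk : b.1 ≠ k.1 := by
        intro h; rw [← h, htb] at hk; exact lt_irrefl _ hk
      refine hstep k hak hbk hk.le ?_ ?_
      · intro hzw
        obtain ⟨n1, _⟩ := hSD a k hak w hta.ge hk.le
        obtain ⟨_, _, g3, _, _, _, g7⟩ := hzspec a k hak n1
        rw [hzw] at g3 g7
        by_cases hm0 : m a k = 0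
        · rw [hm0, zero_smul, add_zero] at g3
          exact hnpa _ g3
        · rw [g7 hm0] at hk
          exact lt_irrefl _ hk
      · intro hzw
        obtain ⟨n1, _⟩ := hSD b k hbk w htb.ge hk.le
        obtain ⟨_, _, g3, _, _, _, g7⟩ := hzspec b k hbk n1
        rw [hzw] at g3 g7
        by_cases hm0 : m b k = 0
        · rw [hm0, zero_smul, add_zero] at g3
          exact hnpb _ g3
        · rw [g7 hm0] at hk
          exact lt_irrefl _ hk
    · push Not at h2a
      have hwK : w ∈ poly A β := fun k hk => h2a ⟨k, hk⟩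
      by_cases hwy : w = y
      · -- the farthest point
        obtain ⟨k, hkA, hkt, hks⟩ : ∃ k ∈ A, inner ℝ k y = β k ∧
            k ∉ Submodule.span ℝ ({a.1, b.1} : Set E) := by
          by_contra hcon
          push Not at hcon
          set P : Submodule ℝ E := Submodule.span ℝ ({a.1, b.1} : Set E) with hP
          have hPrank : Module.finrank ℝ P ≤ 2 := by
            refine (finrank_span_le_card ({a.1, b.1} : Set E)).trans ?_
            rw [Set.toFinset_card, ← Set.toFinset_card]
            have : ({a.1, b.1} : Set E).toFinset = ({a.1, b.1} : Finset E) := by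
              ext x; simp
            rw [this]
            exact Finset.card_le_two
          have hPerp : Pᗮ ≠ ⊥ := by
            intro hbot
            have := Submodule.finrank_add_finrank_orthogonal P
            rw [hbot, finrank_bot] at this
            omega
          obtain ⟨v, hvP, hv0⟩ := Submodule.exists_mem_ne_zero_of_ne_bot hPerp
          have hyP : y ∈ P := by
            rw [← hwy, h3]
            refine P.add_mem (P.smul_mem _ (Submodule.subset_span ?_))
              (P.smul_mem _ (Submodule.subset_span ?_)) <;> simp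
          have e1 : inner ℝ y v = (0 : ℝ) := Submodule.inner_right_of_mem_orthogonal hyP hvP
          have e2 := hF v hv0 (fun k hk hkt =>
            (Submodule.inner_right_of_mem_orthogonal (hcon k hk hkt) hvP).le)
          linarith
        have haS : a.1 ∈ Submodule.span ℝ ({a.1, b.1} : Set E) := Submodule.subset_span (by simp)
        have hbS : b.1 ∈ Submodule.span ℝ ({a.1, b.1} : Set E) := Submodule.subset_span (by simp)
        have hwS : w ∈ Submodule.span ℝ ({a.1, b.1} : Set E) := by
          rw [h3]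
          exact Submodule.add_mem _ (Submodule.smul_mem _ _ haS) (Submodule.smul_mem _ _ hbS)
        have hak : a.1 ≠ k := by intro h; exact hks (h ▸ haS)
        have hbk : b.1 ≠ k := by intro h; exact hks (h ▸ hbS)
        rw [← hwy] at hkt
        refine hstep ⟨k, hkA⟩ hak hbk hkt.ge ?_ ?_
        · intro hzw
          obtain ⟨n1, _⟩ := hSD a ⟨k, hkA⟩ hak w hta.ge hkt.ge
          obtain ⟨_, _, g3, _, _, _, _⟩ := hzspec a ⟨k, hkA⟩ hak n1
          rw [hzw] at g3
          by_cases hm0 : m a ⟨k, hkA⟩ = 0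
          · rw [hm0, zero_smul, add_zero] at g3
            exact hnpa _ g3
          · apply hks
            have : k = (m a ⟨k, hkA⟩)⁻¹ • (w - l a ⟨k, hkA⟩ • a.1) := by
              rw [g3, add_sub_cancel_left, smul_smul, inv_mul_cancel₀ hm0, one_smul]
            rw [this]
            exact Submodule.smul_mem _ _ (Submodule.sub_mem _ hwS (Submodule.smul_mem _ _ haS))
        · intro hzw
          obtain ⟨n1, _⟩ := hSD b ⟨k, hkA⟩ hbk w htb.ge hkt.ge
          obtain ⟨_, _, g3, _, _, _, _⟩ := hzspec b ⟨k, hkA⟩ hbk n1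
          rw [hzw] at g3
          by_cases hm0 : m b ⟨k, hkA⟩ = 0
          · rw [hm0, zero_smul, add_zero] at g3
            exact hnpb _ g3
          · apply hks
            have : k = (m b ⟨k, hkA⟩)⁻¹ • (w - l b ⟨k, hkA⟩ • b.1) := by
              rw [g3, add_sub_cancel_left, smul_smul, inv_mul_cancel₀ hm0, one_smul]
            rw [this]
            exact Submodule.smul_mem _ _ (Submodule.sub_mem _ hwS (Submodule.smul_mem _ _ hbS))
      · -- a saddle point
        have hwS : w ∈ S := Finset.mem_image.2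
          ⟨(a, b), Finset.mem_filter.2 ⟨Finset.mem_univ _, hab, hab', hl, hm, hwK, hwy⟩, rfl⟩
        obtain ⟨⟨p1, p2, p3, p4, _, _⟩, p7⟩ := hpr w hwS
        set a' := (pr w).1 with ha'
        set b' := (pr w).2 with hb'
        obtain ⟨q1, q2, q3, _, _, q6, q7⟩ := hzspec a' b' p1 p2
        rw [p7] at q3 q6 q7
        have hadj : G.Adj a' b' := hadjS w hwS
        have hR : ∀ u : V, inner ℝ u.1 w = β u.1 → (∀ s : ℝ, w ≠ s • u.1) →
            G.Reachable u a' := by
          intro u hu hun
          by_cases hua : u = a'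
          · rw [hua]
          by_cases hub : u = b'
          · rw [hub]; exact hadj.symm.reachable
          have hua1 : u.1 ≠ a'.1 := fun h => hua (Subtype.ext h)
          have hub1 : u.1 ≠ b'.1 := fun h => hub (Subtype.ext h)
          obtain ⟨n1, d1⟩ := hSD u a' hua1 w hu.ge (q6 p3).ge
          obtain ⟨n2, d2⟩ := hSD u b' hub1 w hu.ge (q7 p4).ge
          rcases d1 with d1 | d1
          · exact IH u a' hua1 n1 (by rw [← hc]; exact d1)
          · rcases d2 with d2 | d2
            · exact (IH u b' hub1 n2 (by rw [← hc]; exact d2)).trans hadj.symm.reachable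
            · exfalso
              obtain ⟨s1, s2, s3, _, _, _, _⟩ := hzspec u a' hua1 n1
              obtain ⟨t1, t2, t3, _, _, _, _⟩ := hzspec u b' hub1 n2
              rw [d1] at s3
              rw [d2] at t3
              exact no_three (hV a') (hV b') p1 p2 (lt_of_le_of_ne q1 (Ne.symm p3))
                (lt_of_le_of_ne q2 (Ne.symm p4)) q3 s1 s2 s3 t1 t2 t3 hun
        exact (hR a hta hnpa).trans (hR b htb hnpb).symm
  -- all joins
  have hQ : ∀ p : V × V, p.1.1 ≠ p.2.1 → p.1.1 ≠ -p.2.1 → G.Reachable p.1 p.2 := by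
    have hwf : WellFounded (fun p q : V × V => ‖z p.1 p.2‖ < ‖z q.1 q.2‖) := by
      have : IsTrans (V × V) (fun p q : V × V => ‖z p.1 p.2‖ < ‖z q.1 q.2‖) :=
        ⟨fun _ _ _ h1 h2 => lt_trans h1 h2⟩
      have : Std.Irrefl (fun p q : V × V => ‖z p.1 p.2‖ < ‖z q.1 q.2‖) :=
        ⟨fun _ h => lt_irrefl _ h⟩
      exact Finite.wellFounded_of_trans_of_irrefl _
    intro p
    induction p using hwf.induction with
    | _ p ih =>
      obtain ⟨a, b⟩ := p
      intro hab hab'
      simp only at hab hab' ⊢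
      have IH : ∀ a' b' : V, a'.1 ≠ b'.1 → a'.1 ≠ -b'.1 → ‖z a' b'‖ < ‖z a b‖ →
          G.Reachable a' b' := fun a' b' h1 h2 h3 => ih (a', b') h3 h1 h2
      -- foot case
      have hfc : ∀ u v : V, u.1 ≠ v.1 → β v.1 ≤ inner ℝ v.1 (β u.1 • u.1) →
          ‖z a b‖ = β u.1 → G.Reachable u v := by
        intro u v huv hv hn
        have hnorm : ‖β u.1 • u.1‖ = β u.1 := by
          rw [norm_smul, hV u, mul_one, Real.norm_eq_abs, abs_of_pos (hVβ u)]
        have huM : u ∉ M := by
          intro h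
          have := (Finset.mem_filter.1 h).2 v (fun h => huv (congrArg Subtype.val h).symm)
          linarith
        obtain ⟨g1, g2⟩ := hφ u huM
        have hadj := hadjφ u huM
        by_cases hvφ : v = φ u
        · rw [hvφ]; exact hadj.reachable
        have hvφ1 : v.1 ≠ (φ u).1 := fun h => hvφ (Subtype.ext h)
        obtain ⟨n1, d1⟩ := hSD v (φ u) hvφ1 _ hv g2
        rw [hnorm] at d1
        have hsmall : ∀ k : V, k ≠ u → β k.1 ≤ inner ℝ k.1 (β u.1 • u.1) → β k.1 < β u.1 := by
          intro k hku hk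
          rw [real_inner_smul_right] at hk
          have hneg : k.1 ≠ -u.1 := by
            intro h
            rw [h, inner_neg_left, real_inner_self_eq_norm_sq, hV u] at hk
            have h1 := hVβ k
            have h2 := hVβ u
            rw [h] at h1
            linarith
          have := (abs_inner_lt_one (hV k) (hV u) (fun h => hku (Subtype.ext h)) hneg).1
          have h2 := hVβ u
          nlinarith
        rcases d1 with d1 | d1
        · exact hadj.reachable.trans (IH v (φ u) hvφ1 n1 (by rw [hn]; exact d1)).symm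
        · obtain ⟨s1, s2, s3, _, _, s6, s7⟩ := hzspec v (φ u) hvφ1 n1
          have hvsm := hsmall v (fun h => huv (congrArg Subtype.val h).symm) hv
          have hφsm := hsmall (φ u) g1 g2
          have hm' : m v (φ u) ≠ 0 := by
            intro h0
            rw [h0, zero_smul, add_zero] at s3
            have hl0 : l v (φ u) ≠ 0 := by
              intro h00
              rw [h00, zero_smul] at s3
              rw [s3] at d1
              rw [← d1, norm_zero] at hnorm
              linarith [hVβ u]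
            have e := s6 hl0
            rw [s3, real_inner_smul_right, real_inner_self_eq_norm_sq, hV v] at e
            rw [← d1, s3, norm_smul, hV v, Real.norm_eq_abs, abs_of_nonneg s1] at hnorm
            linarith
          have hl' : l v (φ u) ≠ 0 := by
            intro h0
            rw [h0, zero_smul, zero_add] at s3
            have e := s7 hm'
            rw [s3, real_inner_smul_right, real_inner_self_eq_norm_sq, hV (φ u)] at e
            rw [← d1, s3, norm_smul, hV (φ u), Real.norm_eq_abs, abs_of_nonneg s2] at hnorm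
            linarith
          have := hcore (‖z a b‖) IH v (φ u) hvφ1 n1 hl' hm' (by rw [d1, hnorm, hn])
          exact hadj.reachable.trans this.symm
      obtain ⟨h1, h2, h3, h4, h5, h6, h7⟩ := hzspec a b hab hab'
      by_cases hl : l a b = 0
      · by_cases hm : m a b = 0
        · exfalso
          rw [hl, hm, zero_smul, zero_smul, add_zero] at h3
          rw [h3, inner_zero_right] at h4
          linarith [hVβ a]
        · -- `z = m b`
          have e := h7 hm
          rw [hl, zero_smul, zero_add] at h3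
          have hmβ : m a b = β b.1 := by
            rw [h3, real_inner_smul_right, real_inner_self_eq_norm_sq, hV b] at e
            linarith
          rw [hmβ] at h3
          refine (hfc b a hab.symm ?_ ?_).symm
          · rw [← h3]; exact h4
          · rw [h3, norm_smul, hV b, mul_one, Real.norm_eq_abs, abs_of_pos (hVβ b)]
      · by_cases hm : m a b = 0
        · have e := h6 hl
          rw [hm, zero_smul, add_zero] at h3
          have hlβ : l a b = β a.1 := by
            rw [h3, real_inner_smul_right, real_inner_self_eq_norm_sq, hV a] at e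
            linarith
          rw [hlβ] at h3
          refine hfc a b hab ?_ ?_
          · rw [← h3]; exact h5
          · rw [h3, norm_smul, hV a, mul_one, Real.norm_eq_abs, abs_of_pos (hVβ a)]
        · exact hcore _ IH a b hab hab' hl hm rfl
  -- connectedness
  have hconn : G.Connected := by
    have : Nonempty V := inferInstance
    refine SimpleGraph.Connected.mk ?_
    intro a b
    by_cases hab : a.1 = b.1
    · rw [Subtype.ext hab]
    by_cases hab' : a.1 = -b.1
    · obtain ⟨k, hkT, hka, hkb⟩ : ∃ k ∈ T, k ≠ a.1 ∧ k ≠ b.1 := by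
        by_contra hcon
        push Not at hcon
        have : T ⊆ {a.1, b.1} := by
          intro k hk
          by_cases h : k = a.1
          · simp [h]
          · simp [hcon k hk h]
        have h2 := (Finset.card_le_card this).trans Finset.card_le_two
        omega
      have hk1 : k ≠ -a.1 := by rw [hab', neg_neg]; exact hkb
      have hk2 : k ≠ -b.1 := by rw [← hab']; exact hka
      exact (hQ (⟨k, hTA hkT⟩, a) hka hk1).symm.trans (hQ (⟨k, hTA hkT⟩, b) hkb hk2)
    · exact hQ (a, b) hab hab'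
  -- counting
  have hcount : M.card ≤ S.card + 1 := by
    have h1 := hconn.card_vert_le_card_edgeSet_add_one
    have h2 : Nat.card G.edgeSet ≤ ES.card := by
      rw [Nat.card_coe_set_eq]
      have hsub : G.edgeSet ⊆ (ES : Set (Sym2 V)) := by
        rw [SimpleGraph.edgeSet_fromEdgeSet]
        exact Set.sdiff_subset
      calc G.edgeSet.ncard ≤ (ES : Set (Sym2 V)).ncard := Set.ncard_le_ncard hsub
        _ = ES.card := Set.ncard_coe_finset ES
    have h3 : ES.card ≤ S.card + (Finset.univ.filter (fun a : V => a ∉ M)).card :=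
      (Finset.card_union_le _ _).trans (add_le_add Finset.card_image_le Finset.card_image_le)
    have h4 : (Finset.univ.filter (fun a : V => a ∉ M)).card = Fintype.card V - M.card := by
      rw [← Finset.card_compl]
      congr 1
      ext a
      simp
    have h5 : M.card ≤ Fintype.card V := Finset.card_le_univ M
    rw [Nat.card_eq_fintype_card] at h1
    omega
  have hTM : T.card ≤ M.card := by
    have hsub : T ⊆ M.image Subtype.val := by
      intro a ha
      refine Finset.mem_image.2 ⟨⟨a, hTA ha⟩, Finset.mem_filter.2 ⟨Finset.mem_univ _, ?_⟩, rfl⟩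
      intro b hb
      simp only
      rw [hT a ha, real_inner_smul_right]
      have hb1 : b.1 ≠ a := fun h => hb (Subtype.ext h)
      have h1 : (inner ℝ b.1 a : ℝ) < 1 := by
        refine lt_of_le_of_ne ?_ ?_
        · calc inner ℝ b.1 a ≤ ‖b.1‖ * ‖a‖ := real_inner_le_norm _ _
            _ = 1 := by rw [hV b, hA a (hTA ha)]; norm_num
        · intro h
          exact hb1 ((inner_eq_one_iff_of_norm_eq_one (hV b) (hA a (hTA ha))).1 h)
      have := hβ b.1 b.2
      nlinarith
    exact (Finset.card_le_card hsub).trans Finset.card_image_le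
  -- the points
  have hSnorm : ∀ s ∈ S, r < ‖s‖ := by
    intro s hs
    obtain ⟨⟨p1, p2, p3, p4, p5, _⟩, p7⟩ := hpr s hs
    obtain ⟨_, _, q3, _, _, q6, _⟩ := hzspec _ _ p1 p2
    have e := q6 p3
    rw [p7] at e q3
    have hC : inner ℝ (pr s).1.1 s ≤ ‖(pr s).1.1‖ * ‖s‖ := real_inner_le_norm _ _
    rw [hV, one_mul, e] at hC
    refine lt_of_le_of_ne ((hβ _ (pr s).1.2).trans hC) ?_
    intro heq
    have h1 : β (pr s).1.1 = ‖s‖ := le_antisymm hC (by rw [← heq]; exact hβ _ (pr s).1.2)
    -- equality in Cauchy–Schwarz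
    have h2 : ‖s - ‖s‖ • (pr s).1.1‖ ^ 2 = 0 := by
      rw [norm_sub_sq_real, real_inner_smul_right, real_inner_comm, e, h1, norm_smul, hV,
        Real.norm_eq_abs, mul_one, sq_abs]
      ring
    have h3 : s = ‖s‖ • (pr s).1.1 := by
      have : ‖s - ‖s‖ • (pr s).1.1‖ = 0 := by
        have := norm_nonneg (s - ‖s‖ • (pr s).1.1)
        nlinarith
      exact sub_eq_zero.1 (norm_eq_zero.1 this)
    have h4 : (l (pr s).1 (pr s).2 - ‖s‖) • (pr s).1.1 + m (pr s).1 (pr s).2 • (pr s).2.1 = 0 := by
      have e1 : (l (pr s).1 (pr s).2 • (pr s).1.1 - ‖s‖ • (pr s).1.1) +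
          m (pr s).1 (pr s).2 • (pr s).2.1 = (l (pr s).1 (pr s).2 • (pr s).1.1 +
          m (pr s).1 (pr s).2 • (pr s).2.1) - ‖s‖ • (pr s).1.1 := by abel
      rw [sub_smul, e1, sub_eq_zero]
      exact q3.symm.trans h3
    exact p4 (indep (hV _) (hV _) p1 p2 h4).2
  have hyS : y ∉ S := by
    intro hs
    obtain ⟨⟨_, _, _, _, _, p6⟩, p7⟩ := hpr y hs
    exact p6 p7
  have hyT : ∀ a ∈ T, y ≠ r • a := by
    intro a ha hya
    have hnb : (Submodule.span ℝ ({a} : Set E))ᗮ ≠ ⊥ := by
      intro hbot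
      have h1 := Submodule.finrank_add_finrank_orthogonal (Submodule.span ℝ ({a} : Set E))
      rw [hbot, finrank_bot] at h1
      have h2 : Module.finrank ℝ (Submodule.span ℝ ({a} : Set E)) ≤ 1 := by
        refine (finrank_span_le_card ({a} : Set E)).trans ?_
        simp
      omega
    obtain ⟨v, hvP, hv0⟩ := Submodule.exists_mem_ne_zero_of_ne_bot hnb
    have hav : inner ℝ a v = (0 : ℝ) := Submodule.inner_right_of_mem_orthogonal
      (Submodule.mem_span_singleton_self a) hvP
    have := hF v hv0 (by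
      intro k hk hkt
      by_cases hka : k = a
      · rw [hka, hav]
      · exfalso
        rw [hya, real_inner_smul_right] at hkt
        have h1 : (inner ℝ k a : ℝ) < 1 := by
          refine lt_of_le_of_ne ?_ ?_
          · calc inner ℝ k a ≤ ‖k‖ * ‖a‖ := real_inner_le_norm _ _
              _ = 1 := by rw [hA k hk, hA a (hTA ha)]; norm_num
          · intro h
            exact hka ((inner_eq_one_iff_of_norm_eq_one (hA k hk) (hA a (hTA ha))).1 h)
        have := hβ k hk
        nlinarith)
    rw [hya, real_inner_smul_left, hav, mul_zero] at this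
    exact lt_irrefl _ this
  refine ⟨(T.image (fun a => r • a) ∪ S) ∪ {y}, ?_, ?_⟩
  · have c1 : (T.image (fun a => r • a)).card = T.card := by
      apply Finset.card_image_of_injective
      intro a b hab
      exact smul_right_injective E hr.ne' hab
    have d1 : Disjoint (T.image (fun a => r • a)) S := by
      rw [Finset.disjoint_left]
      intro x hx hxS
      obtain ⟨a, ha, rfl⟩ := Finset.mem_image.1 hx
      have := hSnorm _ hxS
      rw [norm_smul, hA a (hTA ha), mul_one, Real.norm_eq_abs, abs_of_pos hr] at this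
      exact lt_irrefl _ this
    have d2 : Disjoint (T.image (fun a => r • a) ∪ S) {y} := by
      rw [Finset.disjoint_singleton_right, Finset.mem_union, not_or]
      refine ⟨?_, hyS⟩
      intro h
      obtain ⟨a, ha, hay⟩ := Finset.mem_image.1 h
      exact hyT a ha hay.symm
    rw [Finset.card_union_of_disjoint d2, Finset.card_union_of_disjoint d1, c1,
      Finset.card_singleton]
    omega
  · intro x hx
    rcases Finset.mem_union.1 hx with hx | hx
    · rcases Finset.mem_union.1 hx with hx | hx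
      · obtain ⟨a, ha, rfl⟩ := Finset.mem_image.1 hx
        refine ⟨hfoot a ha, ?_, ?_⟩
        · intro h
          have := congrArg norm h
          rw [norm_smul, hA a (hTA ha), mul_one, Real.norm_eq_abs, abs_of_pos hr,
            norm_zero] at this
          linarith
        · intro w hw
          have h1 := hw a (hTA ha)
          rw [hT a ha] at h1
          rw [real_inner_smul_left, inner_sub_right, real_inner_smul_right,
            real_inner_self_eq_norm_sq, hA a (hTA ha)]
          have : r * ((inner ℝ a w : ℝ) - r * 1 ^ 2) = r * (inner ℝ a w - r) := by ring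
          rw [this]
          exact mul_nonpos_of_nonneg_of_nonpos hr.le (by linarith)
      · obtain ⟨⟨p1, p2, p3, p4, p5, _⟩, p7⟩ := hpr x hx
        obtain ⟨q1, q2, q3, _, _, q6, q7⟩ := hzspec _ _ p1 p2
        have e1 := q6 p3
        have e2 := q7 p4
        rw [p7] at e1 e2 q3 p5
        refine ⟨p5, ?_, ?_⟩
        · intro h
          have := hSnorm x hx
          rw [h, norm_zero] at this
          linarith
        · intro w hw
          have h1 := hw _ (pr x).1.2
          have h2 := hw _ (pr x).2.2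
          have : inner ℝ x (w - x) = l (pr x).1 (pr x).2 * (inner ℝ (pr x).1.1 w - inner ℝ (pr x).1.1 x)
              + m (pr x).1 (pr x).2 * ((inner ℝ (pr x).2.1 w : ℝ) - inner ℝ (pr x).2.1 x) := by
            conv_lhs => rw [show inner ℝ x (w - x) = (inner ℝ (l (pr x).1 (pr x).2 • (pr x).1.1 +
              m (pr x).1 (pr x).2 • (pr x).2.1) (w - x) : ℝ) from by rw [← q3]]
            rw [inner_add_left, real_inner_smul_left, real_inner_smul_left, inner_sub_right,
              inner_sub_right]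
          rw [this, e1, e2]
          have f1 := mul_nonpos_of_nonneg_of_nonpos q1 (sub_nonpos.2 h1)
          have f2 := mul_nonpos_of_nonneg_of_nonpos q2 (sub_nonpos.2 h2)
          linarith
    · rw [Finset.mem_singleton] at hx
      subst hx
      have hyr : r ≤ ‖x‖ := by
        have := hymax _ (hfoot t0 ht0)
        rwa [norm_smul, hA t0 (hTA ht0), mul_one, Real.norm_eq_abs, abs_of_pos hr] at this
      refine ⟨hyK, ?_, ?_⟩
      · intro h
        rw [h, norm_zero] at hyr
        linarith
      · intro w hw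
        rw [inner_sub_right, real_inner_self_eq_norm_sq]
        have h1 : (inner ℝ x w : ℝ) ≤ ‖x‖ * ‖w‖ := real_inner_le_norm _ _
        have h2 := hymax w hw
        have h3 := norm_nonneg x
        nlinarith

end Core

/-! ## An inscribed ball touching many facets -/

section LP

variable {E : Type*} [NormedAddCommGroup E] [InnerProductSpace ℝ E] [FiniteDimensional ℝ E]

theorem exists_center (A : Finset E) (h : E → ℝ) (hA : ∀ a ∈ A, ‖a‖ = 1)
    (hK : IsCompact (poly A h)) (hint : (interior (poly A h)).Nonempty) (hne : A.Nonempty) :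
    ∃ (p : E) (r : ℝ) (T : Finset E), 0 < r ∧ (∀ a ∈ A, r ≤ h a - inner ℝ a p) ∧ T ⊆ A ∧
      (∀ a ∈ T, h a - inner ℝ a p = r) ∧ Module.finrank ℝ E + 1 ≤ T.card := by
  classical
  set f : E → ℝ := fun x => A.inf' hne (fun a => h a - inner ℝ a x) with hf
  have hfc : Continuous f := by
    apply Continuous.finset_inf'_apply
    intro a _
    fun_prop
  obtain ⟨x0, hx0⟩ := hint
  have hx0K : x0 ∈ poly A h := interior_subset hx0
  obtain ⟨q, hqK, hqm⟩ := hK.exists_isMaxOn ⟨x0, hx0K⟩ hfc.continuousOn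
  set r := f q with hr
  have hmax : ∀ x ∈ poly A h, f x ≤ r := fun x hx => hqm hx
  have hle : ∀ (x : E) (a : E), a ∈ A → f x ≤ h a - inner ℝ a x :=
    fun x a ha => Finset.inf'_le (fun a => h a - inner ℝ a x) ha
  -- positivity
  have hrpos : 0 < r := by
    obtain ⟨ε, hε, hball⟩ := Metric.isOpen_iff.1 isOpen_interior x0 hx0
    have h1 : ε / 2 ≤ f x0 := by
      apply Finset.le_inf'
      intro a ha
      have hmem : x0 + (ε / 2) • a ∈ poly A h := by
        apply interior_subset
        apply hball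
        rw [Metric.mem_ball, dist_eq_norm, add_sub_cancel_left, norm_smul, hA a ha, mul_one,
          Real.norm_eq_abs, abs_of_pos (by linarith)]
        linarith
      have := hmem a ha
      rw [inner_add_right, real_inner_smul_right, real_inner_self_eq_norm_sq, hA a ha] at this
      linarith
    have := hmax x0 hx0K
    linarith
  -- the set of centres
  set C : Set E := poly A (fun a => h a - r) with hC
  have hCK : C ⊆ poly A h := by
    intro x hx a ha
    have := hx a ha
    simp only at this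
    linarith
  have hqC : q ∈ C := by
    intro a ha
    have := hle q a ha
    simp only
    linarith
  have hCclosed : IsClosed C := by
    have : C = ⋂ a ∈ A, {z : E | (inner ℝ a z : ℝ) ≤ h a - r} := by
      ext z
      simp [hC, poly]
    rw [this]
    exact isClosed_biInter fun a _ => isClosed_le (by fun_prop) continuous_const
  have hCcomp : IsCompact C := hK.of_isClosed_subset hCclosed hCK
  obtain ⟨p, hp⟩ := hCcomp.extremePoints_nonempty ⟨q, hqC⟩
  have hpC : p ∈ C := hp.1
  set T : Finset E := A.filter (fun a => h a - inner ℝ a p = r) with hT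
  refine ⟨p, r, T, hrpos, ?_, Finset.filter_subset _ _, fun a ha => (Finset.mem_filter.1 ha).2, ?_⟩
  · intro a ha
    have := hpC a ha
    simp only at this
    linarith
  -- no direction orthogonal to all of `T`
  have htight : ∀ k ∈ A, inner ℝ k p = h k - r → k ∈ T := by
    intro k hk hkt
    exact Finset.mem_filter.2 ⟨hk, by linarith⟩
  have h2 : ∀ v : E, (∀ a ∈ T, inner ℝ a v = (0 : ℝ)) → v = 0 := by
    intro v hv
    obtain ⟨ε₁, hε₁, hm₁⟩ := exists_small A (fun a => h a - r) hpC (v := v)
      (fun k hk hkt => (hv k (htight k hk hkt)).le)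
    obtain ⟨ε₂, hε₂, hm₂⟩ := exists_small A (fun a => h a - r) hpC (v := -v)
      (fun k hk hkt => by rw [inner_neg_right, hv k (htight k hk hkt), neg_zero])
    have hext := hp.2 hm₁ hm₂ (by
      rw [openSegment_eq_image]
      refine ⟨ε₁ / (ε₁ + ε₂), ⟨by positivity, ?_⟩, ?_⟩
      · rw [div_lt_one (by positivity)]; linarith
      · have hs : ε₁ + ε₂ ≠ 0 := by positivity
        have e1 : (1 - ε₁ / (ε₁ + ε₂)) • (p + ε₁ • v) + (ε₁ / (ε₁ + ε₂)) • (p + ε₂ • -v)
            = p + (((1 - ε₁ / (ε₁ + ε₂)) * ε₁ - (ε₁ / (ε₁ + ε₂)) * ε₂)) • v := by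
          module
        have e2 : (1 - ε₁ / (ε₁ + ε₂)) * ε₁ - (ε₁ / (ε₁ + ε₂)) * ε₂ = 0 := by
          field_simp; ring
        simp only
        rw [e1, e2, zero_smul, add_zero])
    have hpv : ε₁ • v = 0 := by
      have := hext
      simpa using this
    rcases smul_eq_zero.1 hpv with h0 | h0
    · exact absurd h0 hε₁.ne'
    · exact h0
  -- no direction improving all of `T`
  have h1 : ∀ v : E, ¬ (∀ a ∈ T, inner ℝ a v < (0 : ℝ)) := by
    intro v hv
    obtain ⟨ε, hε, hm⟩ := exists_small A (fun a => h a - r) hpC (v := v)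
      (fun k hk hkt => (hv k (htight k hk hkt)).le)
    -- at the half way point all constraints are slack
    have hslack : ∀ a ∈ A, inner ℝ a (p + (ε / 2) • v) < h a - r := by
      intro a ha
      have e0 := hpC a ha
      have e1 := hm a ha
      simp only at e0 e1
      rw [inner_add_right, real_inner_smul_right] at e1 ⊢
      by_cases haT : a ∈ T
      · have := hv a haT
        nlinarith
      · have : inner ℝ a p < h a - r := by
          refine lt_of_le_of_ne e0 ?_
          intro heq
          exact haT (htight a ha heq)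
        nlinarith
    have hmem : p + (ε / 2) • v ∈ poly A h := by
      intro a ha
      have := hslack a ha
      linarith
    have hlt : r < f (p + (ε / 2) • v) := by
      rw [hf]
      simp only
      rw [Finset.lt_inf'_iff]
      intro a ha
      have := hslack a ha
      linarith
    exact absurd (hmax _ hmem) (not_le.2 hlt)
  -- counting
  by_contra hcon
  push Not at hcon
  let L : E →ₗ[ℝ] (T → ℝ) :=
    LinearMap.pi (fun a : T => (innerₛₗ ℝ a.1 : E →ₗ[ℝ] ℝ))
  have hLapp : ∀ (v : E) (a : T), L v a = inner ℝ a.1 v := fun v a => rfl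
  have hinj : Function.Injective L := by
    rw [← LinearMap.ker_eq_bot, LinearMap.ker_eq_bot']
    intro v hv
    apply h2
    intro a ha
    have := congrFun hv ⟨a, ha⟩
    rw [hLapp] at this
    exact this
  have hfr : Module.finrank ℝ (T → ℝ) = T.card := by
    rw [Module.finrank_fintype_fun_eq_card, Fintype.card_coe]
  have hle' : Module.finrank ℝ E ≤ Module.finrank ℝ (T → ℝ) :=
    LinearMap.finrank_le_finrank_of_injective hinj
  have heq : Module.finrank ℝ E = Module.finrank ℝ (T → ℝ) := by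
    rw [hfr] at hle' ⊢
    omega
  have hsurj : Function.Surjective L :=
    (LinearMap.injective_iff_surjective_of_finrank_eq_finrank heq).1 hinj
  obtain ⟨v, hv⟩ := hsurj (fun _ => -1)
  apply h1 v
  intro a ha
  have := congrFun hv ⟨a, ha⟩
  rw [hLapp] at this
  rw [this]
  norm_num

end LP

/-! ## The main theorem -/

/-- A convex polytope with nonempty interior: a compact set with nonempty interior that is the
intersection of finitely many closed half-spaces `{z | ⟨c.1, z⟩ ≤ c.2}`. -/
def IsConvexPolytope {d : ℕ} (K : Set (EuclideanSpace ℝ (Fin d))) : Prop :=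
  IsCompact K ∧ (interior K).Nonempty ∧
    ∃ F : Finset (EuclideanSpace ℝ (Fin d) × ℝ), K = {z | ∀ c ∈ F, inner ℝ c.1 z ≤ c.2}

/-- `p` lies on a normal of `K` at `x`: on a line through `x` spanned by a nonzero vector `ν`
orthogonal to a hyperplane through `x` that has `K` on one side. -/
def OnNormal {d : ℕ} (K : Set (EuclideanSpace ℝ (Fin d))) (x p : EuclideanSpace ℝ (Fin d)) :
    Prop :=
  ∃ ν : EuclideanSpace ℝ (Fin d), ν ≠ 0 ∧ (∀ z ∈ K, inner ℝ ν z ≤ inner ℝ ν x) ∧
    ∃ t : ℝ, p = x + t • ν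

/-- `p` is a `k`-normal point of `K`: an interior point lying on normals of `K` at `k` distinct
boundary points. -/
def IsNormalPoint {d : ℕ} (k : ℕ) (K : Set (EuclideanSpace ℝ (Fin d)))
    (p : EuclideanSpace ℝ (Fin d)) : Prop :=
  p ∈ interior K ∧ ∃ X : Finset (EuclideanSpace ℝ (Fin d)), X.card = k ∧
    ∀ x ∈ X, x ∈ frontier K ∧ OnNormal K x p

theorem poly_repr {d : ℕ} {K : Set (EuclideanSpace ℝ (Fin d))} (hK : IsConvexPolytope K) :
    ∃ (A : Finset (EuclideanSpace ℝ (Fin d))) (h : EuclideanSpace ℝ (Fin d) → ℝ),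
      (∀ a ∈ A, ‖a‖ = 1) ∧ K = poly A h := by
  classical
  obtain ⟨hc, ⟨x0, hx0⟩, F, hF⟩ := hK
  have hx0K : x0 ∈ K := interior_subset hx0
  refine ⟨(F.filter (fun c => c.1 ≠ 0)).image (fun c => (‖c.1‖)⁻¹ • c.1),
    fun a => sSup ((fun z => (inner ℝ a z : ℝ)) '' K), ?_, ?_⟩
  · intro a ha
    obtain ⟨c, hc, rfl⟩ := Finset.mem_image.1 ha
    have h0 := (Finset.mem_filter.1 hc).2
    rw [norm_smul, norm_inv, norm_norm, inv_mul_cancel₀ (norm_ne_zero_iff.2 h0)]
  · apply Set.Subset.antisymm
    · intro z hz a _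
      have hbdd : BddAbove ((fun z => (inner ℝ a z : ℝ)) '' K) :=
        (hc.image (by fun_prop)).bddAbove
      exact le_csSup hbdd ⟨z, hz, rfl⟩
    · intro z hz
      rw [hF]
      intro c hcF
      have hcle : ∀ w ∈ K, inner ℝ c.1 w ≤ c.2 := by
        intro w hw
        rw [hF] at hw
        exact hw c hcF
      by_cases h0 : c.1 = 0
      · have := hcle x0 hx0K
        rw [h0, inner_zero_left] at this ⊢
        exact this
      · have hn : 0 < ‖c.1‖ := norm_pos_iff.2 h0
        have hmem : (‖c.1‖)⁻¹ • c.1 ∈ (F.filter (fun c => c.1 ≠ 0)).image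
            (fun c => (‖c.1‖)⁻¹ • c.1) :=
          Finset.mem_image.2 ⟨c, Finset.mem_filter.2 ⟨hcF, h0⟩, rfl⟩
        have h1 := hz _ hmem
        simp only at h1
        have h2 : sSup ((fun z => (inner ℝ ((‖c.1‖)⁻¹ • c.1) z : ℝ)) '' K) ≤ (‖c.1‖)⁻¹ * c.2 := by
          apply csSup_le (Set.Nonempty.image _ ⟨x0, hx0K⟩)
          rintro _ ⟨w, hw, rfl⟩
          simp only
          rw [real_inner_smul_left]
          exact mul_le_mul_of_nonneg_left (hcle w hw) (inv_nonneg.2 hn.le)
        have h3 := h1.trans h2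
        rw [real_inner_smul_left] at h3
        exact le_of_mul_le_mul_left h3 (inv_pos.2 hn)

/-- Every convex polytope in `ℝ^d`, `d ≥ 3`, has a `(2d+2)`-normal point. -/
theorem result (d : ℕ) (hd : 3 ≤ d) (K : Set (EuclideanSpace ℝ (Fin d)))
    (hK : IsConvexPolytope K) :
    ∃ p : EuclideanSpace ℝ (Fin d), IsNormalPoint (2 * d + 2) K p := by
  classical
  obtain ⟨A, h, hA, hKA⟩ := poly_repr hK
  obtain ⟨hc, hint, _⟩ := hK
  have hfr : Module.finrank ℝ (EuclideanSpace ℝ (Fin d)) = d := finrank_euclideanSpace_fin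
  have hne : A.Nonempty := by
    by_contra hcon
    rw [Finset.not_nonempty_iff_eq_empty] at hcon
    have huniv : K = Set.univ := by
      rw [hKA, hcon]
      ext z
      simp [poly]
    have : Nontrivial (EuclideanSpace ℝ (Fin d)) :=
      Module.nontrivial_of_finrank_pos (R := ℝ) (by omega)
    rw [huniv] at hc
    exact NormedSpace.unbounded_univ ℝ (EuclideanSpace ℝ (Fin d)) hc.isBounded
  obtain ⟨p, r, T, hr, hβ, hTA, hT, hcard⟩ := exists_center A h hA (hKA ▸ hc) (hKA ▸ hint) hne
  set β : EuclideanSpace ℝ (Fin d) → ℝ := fun a => h a - inner ℝ a p with hβdef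
  have hshift : ∀ z, z ∈ poly A β ↔ z + p ∈ K := by
    intro z
    rw [hKA]
    constructor
    · intro hz a ha
      have := hz a ha
      simp only [hβdef] at this
      rw [inner_add_right]
      linarith
    · intro hz a ha
      have := hz a ha
      rw [inner_add_right] at this
      simp only [hβdef]
      linarith
  have himg : poly A β = (fun z => z + (-p)) '' K := by
    ext z
    rw [hshift]
    constructor
    · intro hz
      exact ⟨z + p, hz, by simp⟩
    · rintro ⟨w, hw, rfl⟩
      simpa using hw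
  have hcomp : IsCompact (poly A β) := by
    rw [himg]
    exact hc.image (by fun_prop)
  obtain ⟨X, hXcard, hX⟩ := core (by rw [hfr]; exact hd) A β hA r hr hβ T hTA hT
    (by rw [hfr] at hcard; omega) hcomp
  obtain ⟨Y, hYX, hYcard⟩ := Finset.exists_subset_card_eq
    (show 2 * d + 2 ≤ X.card by rw [hfr] at hcard; omega)
  refine ⟨p, ?_, Y.image (fun x => x + p), ?_, ?_⟩
  · -- `p` is interior
    rw [mem_interior_iff_mem_nhds, Metric.mem_nhds_iff]
    refine ⟨r, hr, ?_⟩
    intro x hx
    rw [hKA]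
    intro a ha
    rw [Metric.mem_ball, dist_eq_norm] at hx
    have h1 : inner ℝ a (x - p) ≤ ‖a‖ * ‖x - p‖ := real_inner_le_norm _ _
    rw [hA a ha, one_mul, inner_sub_right] at h1
    have h2 := hβ a ha
    linarith
  · rw [Finset.card_image_of_injective _ (add_left_injective p), hYcard]
  · intro x hx
    obtain ⟨w, hw, rfl⟩ := Finset.mem_image.1 hx
    obtain ⟨hwK, hw0, hwc⟩ := hX w (hYX hw)
    have hsup : ∀ z ∈ K, inner ℝ w z ≤ inner ℝ w (w + p) := by
      intro z hz
      have h1 := hwc (z - p) ((hshift _).2 (by simpa using hz))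
      rw [inner_sub_right, inner_sub_right] at h1
      rw [inner_add_right]
      linarith
    have hmem : w + p ∈ K := (hshift w).1 hwK
    refine ⟨?_, w, hw0, hsup, -1, by simp⟩
    rw [frontier, Set.mem_sdiff]
    refine ⟨subset_closure hmem, ?_⟩
    intro hin
    obtain ⟨ε, hε, hball⟩ := Metric.isOpen_iff.1 isOpen_interior _ hin
    have hwn : 0 < ‖w‖ := norm_pos_iff.2 hw0
    have h1 : (w + p) + (ε / (2 * ‖w‖)) • w ∈ K := by
      apply interior_subset
      apply hball
      rw [Metric.mem_ball, dist_eq_norm, add_sub_cancel_left, norm_smul, Real.norm_eq_abs,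
        abs_of_pos (by positivity)]
      have : ε / (2 * ‖w‖) * ‖w‖ = ε / 2 := by field_simp
      rw [this]
      linarith
    have h2 := hsup _ h1
    rw [inner_add_right w (w + p), real_inner_smul_right, real_inner_self_eq_norm_sq] at h2
    have h3 : 0 < ε / (2 * ‖w‖) * ‖w‖ ^ 2 := by positivity
    linarith

end Pool.Agent.Results.MP_00eb82_gt.PolytopeNormals
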